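import Mathlib

/-!
# MP_114a18_co: `GR*_k(H) = GR_{k-1}(H)` for every graph `H` with a connected core
-/

namespace Pool.Agent.Results.MP_114a18_co.ConnectedCore

/-! ## The core lemma, for symmetric functions of two variables -/

section Core

variable {X K V : Type*}

/-- edges of colour `i` inside the set `P` -/
def G (c : X → X → K) (P : Finset X) (i : K) : SimpleGraph X where
  Adj u v := u ∈ P ∧ v ∈ P ∧ u ≠ v ∧ c u v = i ∧ c v u = i
  symm := ⟨fun _ _ h => ⟨h.2.1, h.1, h.2.2.1.symm, h.2.2.2.2, h.2.2.2.1⟩⟩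
  loopless := ⟨fun _ h => h.2.2.1 rfl⟩

/-- no rainbow triangle inside `P` -/
def Gal (c : X → X → K) (P : Finset X) : Prop :=
  ∀ u ∈ P, ∀ v ∈ P, ∀ w ∈ P, u ≠ v → v ≠ w → u ≠ w →
    c u v = c v w ∨ c v w = c u w ∨ c u v = c u w

/-- a proper module equivalence relation on `P` -/
structure Good (c : X → X → K) (P : Finset X) (r : X → X → Prop) : Prop where
  equiv : Equivalence r
  inP : ∀ u v, r u v → u = v ∨ (u ∈ P ∧ v ∈ P)
  proper : ∃ u ∈ P, ∃ v ∈ P, ¬ r u v
  modul : ∀ u ∈ P, ∀ v ∈ P, ∀ w ∈ P, r u v → ¬ r u w → c u w = c v w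

lemma exists_good [Finite X] (c : X → X → K) (P : Finset X) (hP : 2 ≤ P.card) :
    ∃ r, Maximal (Good c P) r := by
  have hne : {r : X → X → Prop | Good c P r}.Nonempty := by
    obtain ⟨a, ha, b, hb, hab⟩ := Finset.one_lt_card.mp (show 1 < P.card by omega)
    exact ⟨Eq, ⟨eq_equivalence, fun u v h => Or.inl h, ⟨a, ha, b, hb, hab⟩,
      fun u _ v _ w _ h _ => by rw [h]⟩⟩
  have hfin : {r : X → X → Prop | Good c P r}.Finite := Set.toFinite _
  obtain ⟨r, hr⟩ := hfin.exists_maximal hne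
  exact ⟨r, hr⟩

/-- In a maximal proper module equivalence every cross colour is seen by every vertex. -/
lemma seen {c : X → X → K} {P : Finset X} {r : X → X → Prop}
    (hsym : ∀ u v, c u v = c v u) (hgal : Gal c P) (hr : Maximal (Good c P) r)
    {a b : X} (ha : a ∈ P) (hb : b ∈ P) (hab : ¬ r a b) {v : X} (hv : v ∈ P) :
    ∃ w ∈ P, ¬ r v w ∧ c v w = c a b := by
  classical
  have hg := hr.prop
  set i := c a b with hi
  let g : X → X → Prop := fun x y => r x y ∨ (x ∈ P ∧ y ∈ P ∧ ¬ r x y ∧ c x y = i)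
  let R : X → X → Prop := Relation.EqvGen g
  have hReq : Equivalence R := Relation.EqvGen.is_equivalence g
  have hRin : ∀ x y, R x y → x = y ∨ (x ∈ P ∧ y ∈ P) := by
    intro x y h
    induction h with
    | rel x y h =>
      rcases h with h | h
      · exact hg.inP x y h
      · exact Or.inr ⟨h.1, h.2.1⟩
    | refl x => exact Or.inl rfl
    | symm x y _ ih => 
      rcases ih with ih | ih
      · exact Or.inl ih.symm
      · exact Or.inr ⟨ih.2, ih.1⟩
    | trans x y z _ _ ih1 ih2 =>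
      rcases ih1 with rfl | ih1
      · exact ih2
      · rcases ih2 with rfl | ih2
        · exact Or.inr ih1
        · exact Or.inr ⟨ih1.1, ih2.2⟩
  have hRmod : ∀ x y, R x y → ∀ w ∈ P, x ∈ P → ¬ R x w → c x w = c y w := by
    intro x y h
    induction h with
    | rel x y h =>
      intro w hw hx hn
      have hnr : ¬ r x w := fun h' => hn (Relation.EqvGen.rel _ _ (Or.inl h'))
      rcases h with h | h
      · rcases hg.inP x y h with rfl | h2
        · rfl
        · exact hg.modul x hx y h2.2 w hw h hnr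
      · obtain ⟨hx, hy, hnxy, hc⟩ := h
        have hny : ¬ R y w := fun h' => hn (Relation.EqvGen.trans _ _ _
          (Relation.EqvGen.rel _ _ (Or.inr ⟨hx, hy, hnxy, hc⟩)) h')
        have hnry : ¬ r y w := fun h' => hny (Relation.EqvGen.rel _ _ (Or.inl h'))
        have h1 : c x w ≠ i := fun h' => hn (Relation.EqvGen.rel _ _ (Or.inr ⟨hx, hw, hnr, h'⟩))
        have h2 : c y w ≠ i := fun h' => hny (Relation.EqvGen.rel _ _ (Or.inr ⟨hy, hw, hnry, h'⟩))
        have hxy : x ≠ y := fun h' => hnxy (h' ▸ hg.equiv.refl x)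
        have hxw : x ≠ w := fun h' => hnr (h' ▸ hg.equiv.refl x)
        have hyw : y ≠ w := fun h' => hnry (h' ▸ hg.equiv.refl y)
        rcases hgal x hx y hy w hw hxy hyw hxw with h3 | h3 | h3
        · exact absurd (h3.symm.trans hc) h2
        · exact h3.symm
        · exact absurd (h3.symm.trans hc) h1
    | refl x => intro w _ _ _; rfl
    | symm x y h ih =>
      intro w hw hy hn
      have hn' : ¬ R x w := fun h' => hn (Relation.EqvGen.trans _ _ _ (Relation.EqvGen.symm _ _ h) h')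
      rcases hRin x y h with rfl | h2
      · rfl
      · exact (ih w hw h2.1 hn').symm
    | trans x y z h1 h2 ih1 ih2 =>
      intro w hw hx hn
      have hn' : ¬ R y w := fun h' => hn (Relation.EqvGen.trans _ _ _ h1 h')
      have hy : y ∈ P := by
        rcases hRin x y h1 with rfl | h3
        · exact hx
        · exact h3.2
      exact (ih1 w hw hx hn).trans (ih2 w hw hy hn')
  -- `R` is not proper
  have hRfull : ∀ x ∈ P, ∀ y ∈ P, R x y := by
    by_contra hcon
    push Not at hcon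
    have hgood : Good c P R := by
      refine ⟨hReq, hRin, ?_, ?_⟩
      · obtain ⟨x, hx, y, hy, hxy⟩ := hcon
        exact ⟨x, hx, y, hy, hxy⟩
      · intro u hu v _ w hw h1 h2
        exact hRmod u v h1 w hw hu h2
    have hle : R ≤ r := hr.le_of_ge hgood (fun x y h => Relation.EqvGen.rel _ _ (Or.inl h))
    exact hab (hle a b (Relation.EqvGen.rel _ _ (Or.inr ⟨ha, hb, hab, rfl⟩)))
  by_contra hno
  push Not at hno
  have hinv : ∀ x y, R x y → (r v x ↔ r v y) := by
    intro x y h
    induction h with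
    | rel x y h =>
      rcases h with h | h
      · exact ⟨fun h' => hg.equiv.trans h' h, fun h' => hg.equiv.trans h' (hg.equiv.symm h)⟩
      · obtain ⟨hx, hy, hnxy, hc⟩ := h
        constructor
        · intro h'
          exfalso
          have h1 : ¬ r v y := fun h'' => hnxy (hg.equiv.trans (hg.equiv.symm h') h'')
          have h2 : c v y = c x y := hg.modul v hv x hx y hy h' h1
          exact hno y hy h1 (h2.trans hc)
        · intro h'
          exfalso
          have h1 : ¬ r v x := fun h'' => hnxy (hg.equiv.trans (hg.equiv.symm h'') h')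
          have h2 : c v x = c y x := hg.modul v hv y hy x hx h' h1
          exact hno x hx h1 (h2.trans ((hsym y x).trans hc))
    | refl x => exact Iff.rfl
    | symm x y _ ih => exact ih.symm
    | trans x y z _ _ ih1 ih2 => exact ih1.trans ih2
  have h1 : r v a := (hinv v a (hRfull v hv a ha)).mp (hg.equiv.refl v)
  have h2 : r v b := (hinv v b (hRfull v hv b hb)).mp (hg.equiv.refl v)
  exact hab (hg.equiv.trans (hg.equiv.symm h1) h2)

/-- The recursion. -/
lemma core [Finite X] {H : SimpleGraph V} (hH : H.Connected) (hedge : ∃ x y, H.Adj x y) :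
    ∀ (n : ℕ) (P : Finset X), P.card = n → ∀ (c : X → X → K) (vc : X → K) (A : Set K) (j : K),
      (∀ u v, c u v = c v u) → Gal c P → (∀ u ∈ P, ∀ v ∈ P, u ≠ v → c u v ≠ vc u) →
      (∀ i, ¬ Nonempty (H →g G c P i)) → (∀ v ∈ P, vc v ∉ A) → j ∉ A →
      ∃ c' : X → X → K, (∀ u v, c' u v = c' v u) ∧ Gal c' P ∧
        (∀ u ∈ P, ∀ v ∈ P, u ≠ v → c' u v ≠ j) ∧
        (∀ u ∈ P, ∀ v ∈ P, u ≠ v → ∀ i ∈ A, (c' u v = i ↔ c u v = i)) ∧
        (∀ i, ¬ Nonempty (H →g G c' P i)) := by
  classical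
  intro n
  induction n using Nat.strong_induction_on with
  | _ n ih =>
  intro P hPn c vc A j hsym hgal hvc hfree hvA hjA
  rcases Nat.lt_or_ge P.card 2 with hlt | hge
  · have hsub : ∀ u ∈ P, ∀ v ∈ P, u = v := fun u hu v hv =>
      Finset.card_le_one.mp (by omega) u hu v hv
    exact ⟨c, hsym, hgal, fun u hu v hv huv => absurd (hsub u hu v hv) huv,
      fun u _ v _ _ i _ => Iff.rfl, hfree⟩
  obtain ⟨r, hr⟩ := exists_good c P hge
  have hg := hr.prop
  -- choose a vertex and the permutation of colours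
  obtain ⟨a0, ha0, b0, hb0, hab0⟩ := hg.proper
  set j1 := vc a0 with hj1
  have hj1A : j1 ∉ A := hvA a0 ha0
  let π : Equiv.Perm K := Equiv.swap j j1
  have hπA : ∀ i ∈ A, ∀ x, π x = i ↔ x = i := by
    intro i hi x
    have h1 : π i = i := Equiv.swap_apply_of_ne_of_ne (fun h => hjA (h ▸ hi)) (fun h => hj1A (h ▸ hi))
    constructor
    · intro h
      exact π.injective (h.trans h1.symm)
    · intro h
      rw [h, h1]
  have hπj : ∀ x, π x = j → x = j1 := by
    intro x hx
    have h1 : π j1 = j := Equiv.swap_apply_right j j1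
    exact π.injective (hx.trans h1.symm)
  let c1 : X → X → K := fun u v => π (c u v)
  let S : Set K := {i | ∃ u ∈ P, ∃ v ∈ P, ¬ r u v ∧ c1 u v = i}
  have hseen : ∀ i ∈ S, ∀ v ∈ P, ∃ w ∈ P, ¬ r v w ∧ c1 v w = i := by
    rintro i ⟨x, hx, y, hy, hxy, hi⟩ v hv
    obtain ⟨w, hw, h1, h2⟩ := seen hsym hgal hr hx hy hxy hv
    exact ⟨w, hw, h1, by show π (c v w) = i; rw [h2]; exact hi⟩
  have hjS : j ∉ S := by
    intro h
    obtain ⟨w, hw, h1, h2⟩ := hseen j h a0 ha0
    have h3 : c a0 w = j1 := hπj _ h2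
    have hne : a0 ≠ w := fun h' => h1 (h' ▸ hg.equiv.refl a0)
    exact hvc a0 ha0 w hw hne h3
  have hsym1 : ∀ u v, c1 u v = c1 v u := fun u v => by show π _ = π _; rw [hsym]
  have hgal1 : Gal c1 P := by
    intro u hu v hv w hw h1 h2 h3
    rcases hgal u hu v hv w hw h1 h2 h3 with h | h | h
    · exact Or.inl (congrArg π h)
    · exact Or.inr (Or.inl (congrArg π h))
    · exact Or.inr (Or.inr (congrArg π h))
  have hmod1 : ∀ u ∈ P, ∀ v ∈ P, ∀ w ∈ P, r u v → ¬ r u w → c1 u w = c1 v w :=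
    fun u hu v hv w hw h1 h2 => congrArg π (hg.modul u hu v hv w hw h1 h2)
  have hfree1 : ∀ i, ¬ Nonempty (H →g G c1 P i) := by
    rintro i ⟨f⟩
    refine hfree (π.symm i) ⟨⟨f, ?_⟩⟩
    intro x y hxy
    obtain ⟨h1, h2, h3, h4, h5⟩ := f.map_adj hxy
    refine ⟨h1, h2, h3, ?_, ?_⟩
    · exact (Equiv.eq_symm_apply π).mpr h4
    · exact (Equiv.eq_symm_apply π).mpr h5
  -- the parts
  let Q : X → Finset X := fun u => P.filter (fun v => r u v)
  have hQ : ∀ u v, r u v → Q u = Q v := by
    intro u v h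
    ext w
    simp only [Q, Finset.mem_filter]
    exact ⟨fun h' => ⟨h'.1, hg.equiv.trans (hg.equiv.symm h) h'.2⟩,
      fun h' => ⟨h'.1, hg.equiv.trans h h'.2⟩⟩
  have hQP : ∀ u, Q u ⊆ P := fun u => Finset.filter_subset _ _
  have hQcard : ∀ u, (Q u).card < n := by
    intro u
    rw [← hPn]
    apply Finset.card_lt_card
    refine ⟨hQP u, fun hsub => ?_⟩
    have h1 := (Finset.mem_filter.mp (hsub ha0)).2
    have h2 := (Finset.mem_filter.mp (hsub hb0)).2
    exact hab0 (hg.equiv.trans (hg.equiv.symm h1) h2)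
  have hrec : ∀ T : Finset X, (∃ u, T = Q u) → ∃ c' : X → X → K, (∀ u v, c' u v = c' v u) ∧
      Gal c' T ∧ (∀ u ∈ T, ∀ v ∈ T, u ≠ v → c' u v ≠ j) ∧
      (∀ u ∈ T, ∀ v ∈ T, u ≠ v → ∀ i ∈ A ∪ S, (c' u v = i ↔ c1 u v = i)) ∧
      (∀ i, ¬ Nonempty (H →g G c' T i)) := by
    rintro T ⟨u0, rfl⟩
    refine ih (Q u0).card (hQcard u0) (Q u0) rfl c1 (fun v => π (vc v)) (A ∪ S) j hsym1 ?_ ?_ ?_ ?_ ?_
    · intro u hu v hv w hw
      exact hgal1 u (hQP _ hu) v (hQP _ hv) w (hQP _ hw)
    · intro u hu v hv huv h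
      exact hvc u (hQP _ hu) v (hQP _ hv) huv (π.injective h)
    · rintro i ⟨f⟩
      refine hfree1 i ⟨⟨f, ?_⟩⟩
      intro x y hxy
      obtain ⟨h1, h2, h3⟩ := f.map_adj hxy
      exact ⟨hQP _ h1, hQP _ h2, h3⟩
    · intro v hv hmem
      rcases hmem with h | h
      · have h1 : vc v = π (vc v) := (hπA _ h (vc v)).mp rfl
        exact hvA v (hQP _ hv) (h1 ▸ h)
      · obtain ⟨w, hw, h1, h2⟩ := hseen _ h v (hQP _ hv)
        have hne : v ≠ w := fun h' => h1 (h' ▸ hg.equiv.refl v)
        exact hvc v (hQP _ hv) w hw hne (π.injective h2)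
    · rintro (h | h)
      · exact hjA h
      · exact hjS h
  have : Nonempty K := ⟨j⟩
  choose! F hF using hrec
  let c' : X → X → K := fun u v => if r u v then F (Q u) u v else c1 u v
  have hin : ∀ u v, r u v → c' u v = F (Q u) u v := fun u v h => if_pos h
  have hout : ∀ u v, ¬ r u v → c' u v = c1 u v := fun u v h => if_neg h
  have hc'sym : ∀ u v, c' u v = c' v u := by
    intro u v
    by_cases h : r u v
    · rw [hin u v h, hin v u (hg.equiv.symm h), hQ u v h]
      exact (hF (Q v) ⟨v, rfl⟩).1 u v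
    · rw [hout u v h, hout v u (fun h' => h (hg.equiv.symm h'))]
      exact hsym1 u v
  have hmem : ∀ u ∈ P, ∀ v, r v u → u ∈ Q v := fun u hu v h => Finset.mem_filter.mpr ⟨hu, h⟩
  have hAS : ∀ u ∈ P, ∀ v ∈ P, u ≠ v → ∀ i ∈ A ∪ S, (c' u v = i ↔ c1 u v = i) := by
    intro u hu v hv huv i hi
    by_cases h : r u v
    · rw [hin u v h]
      exact (hF (Q u) ⟨u, rfl⟩).2.2.2.1 u (hmem u hu u (hg.equiv.refl u)) v (hmem v hv u h) huv i hi
    · rw [hout u v h]
  refine ⟨c', hc'sym, ?_, ?_, ?_, ?_⟩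
  · intro u hu v hv w hw h1 h2 h3
    by_cases huv : r u v
    · by_cases hvw : r v w
      · have huw : r u w := hg.equiv.trans huv hvw
        rw [hin u v huv, hin v w hvw, hin u w huw, ← hQ u v huv]
        exact (hF (Q u) ⟨u, rfl⟩).2.1 u (hmem u hu u (hg.equiv.refl u)) v (hmem v hv u huv)
          w (hmem w hw u huw) h1 h2 h3
      · have huw : ¬ r u w := fun h => hvw (hg.equiv.trans (hg.equiv.symm huv) h)
        right; left
        rw [hout v w hvw, hout u w huw]
        exact (hmod1 u hu v hv w hw huv huw).symm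
    · by_cases hvw : r v w
      · have huw : ¬ r u w := fun h => huv (hg.equiv.trans h (hg.equiv.symm hvw))
        right; right
        rw [hout u v huv, hout u w huw, hsym1 u v, hsym1 u w]
        exact hmod1 v hv w hw u hu hvw (fun h => huv (hg.equiv.symm h))
      · by_cases huw : r u w
        · left
          rw [hout u v huv, hout v w hvw, hsym1 v w]
          exact hmod1 u hu w hw v hv huw huv
        · rw [hout u v huv, hout v w hvw, hout u w huw]
          exact hgal1 u hu v hv w hw h1 h2 h3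
  · intro u hu v hv huv
    by_cases h : r u v
    · rw [hin u v h]
      exact (hF (Q u) ⟨u, rfl⟩).2.2.1 u (hmem u hu u (hg.equiv.refl u)) v (hmem v hv u h) huv
    · rw [hout u v h]
      intro h'
      exact hjS ⟨u, hu, v, hv, h, h'⟩
  · intro u hu v hv huv i hi
    rw [hAS u hu v hv huv i (Or.inl hi)]
    exact hπA i hi _
  · rintro i ⟨f⟩
    by_cases hi : i ∈ A ∪ S
    · refine hfree1 i ⟨⟨f, ?_⟩⟩
      intro x y hxy
      obtain ⟨h1, h2, h3, h4, h5⟩ := f.map_adj hxy
      exact ⟨h1, h2, h3, (hAS _ h1 _ h2 h3 i hi).mp h4, (hAS _ h2 _ h1 h3.symm i hi).mp h5⟩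
    · obtain ⟨x0, y0, hxy0⟩ := hedge
      have hx0 : f x0 ∈ P := (f.map_adj hxy0).1
      have hadj : ∀ x y, H.Adj x y → r (f x) (f y) := by
        intro x y hxy
        obtain ⟨h1, h2, h3, h4, h5⟩ := f.map_adj hxy
        by_contra hn
        exact hi (Or.inr ⟨f x, h1, f y, h2, hn, (hout _ _ hn).symm.trans h4⟩)
      have hwalk : ∀ {x y : V} (_ : H.Walk x y), (f x ∈ P ∧ r (f x0) (f x)) →
          (f y ∈ P ∧ r (f x0) (f y)) := by
        intro x y w
        induction w with
        | nil => exact fun h => h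
        | cons hpq _ ihw =>
          intro h
          exact ihw ⟨(f.map_adj hpq).2.1, hg.equiv.trans h.2 (hadj _ _ hpq)⟩
      have hall : ∀ x, f x ∈ P ∧ r (f x0) (f x) := by
        intro x
        obtain ⟨w⟩ := hH.preconnected x0 x
        exact hwalk w ⟨hx0, hg.equiv.refl _⟩
      refine (hF (Q (f x0)) ⟨f x0, rfl⟩).2.2.2.2 i ⟨⟨f, ?_⟩⟩
      intro x y hxy
      obtain ⟨h1, h2, h3, h4, h5⟩ := f.map_adj hxy
      have h6 : F (Q (f x0)) (f x) (f y) = i := by
        rw [hQ _ _ (hall x).2, ← hin _ _ (hadj x y hxy)]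
        exact h4
      have h7 : F (Q (f x0)) (f y) (f x) = i := by
        rw [hQ _ _ (hall y).2, ← hin _ _ (hadj y x hxy.symm)]
        exact h5
      exact ⟨hmem _ h1 _ (hall x).2, hmem _ h2 _ (hall y).2, h3, h6, h7⟩

end Core

/-! ## Definitions of the problem

A map `c : Sym2 (Fin n) → Fin k` colours the nonempty subsets of size at most two of an `n`-element
set: `s(u, v)` with `u ≠ v` is the edge `uv` of `K_n` and `s(v, v)` is the vertex `v`. -/

/-- The graph of the edges of colour `i`. -/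
def colourGraph {n k : ℕ} (c : Sym2 (Fin n) → Fin k) (i : Fin k) : SimpleGraph (Fin n) where
  Adj u v := u ≠ v ∧ c s(u, v) = i
  symm := ⟨fun u v h => ⟨h.1.symm, by rw [Sym2.eq_swap]; exact h.2⟩⟩
  loopless := ⟨fun _ h => h.1 rfl⟩

/-- No rainbow triangle. -/
def Gallai {n k : ℕ} (c : Sym2 (Fin n) → Fin k) : Prop :=
  ∀ u v w : Fin n, u ≠ v → v ≠ w → u ≠ w →
    c s(u, v) = c s(v, w) ∨ c s(v, w) = c s(u, w) ∨ c s(u, v) = c s(u, w)

/-- The edge-colouring contains a monochromatic homomorphic copy of `H`. -/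
def HasMono {V : Type*} (H : SimpleGraph V) {n k : ℕ} (c : Sym2 (Fin n) → Fin k) : Prop :=
  ∃ i, Nonempty (H →g colourGraph c i)

/-- The set whose least element is `GR_k(𝓗)`: the `n` such that every Gallai-`k`-colouring of the
edges of `K_n` contains a monochromatic homomorphic copy of `H` (the values of `c` on vertices play
no role here). -/
def grSet {V : Type*} (k : ℕ) (H : SimpleGraph V) : Set ℕ :=
  {n | ∀ c : Sym2 (Fin n) → Fin k, Gallai c → HasMono H c}

/-- The set whose least element is `GR*_k(H)`. -/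
def grStarSet {V : Type*} (k : ℕ) (H : SimpleGraph V) : Set ℕ :=
  {N | ∀ c : Sym2 (Fin N) → Fin k, (¬ Gallai c ∨ HasMono H c) ∨
    ∃ i j : Fin N, i < j ∧ (c s(i, j) = c s(i, i) ∨ c s(i, j) = c s(j, j))}

/-! ## Ramsey's theorem, to have genuine least elements -/

/-- end-homogeneous sequences -/
lemma endhom {k : ℕ} : ∀ (L : ℕ), ∃ M : ℕ, ∀ {X : Type} [DecidableEq X] (P : Finset X)
    (c : X → X → Fin (k + 1)), M ≤ P.card →
    ∃ (f : ℕ → X) (g : ℕ → Fin (k + 1)), (∀ a < L, f a ∈ P) ∧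
      ∀ a b, a < b → b < L → f a ≠ f b ∧ c (f a) (f b) = g a := by
  intro L
  induction L with
  | zero => 
    refine ⟨1, fun {X} _ P c hP => ?_⟩
    obtain ⟨x, hx⟩ := Finset.card_pos.mp (by omega : 0 < P.card)
    exact ⟨fun _ => x, fun _ => 0, fun a ha => absurd ha (by omega), fun a b _ hb => absurd hb (by omega)⟩
  | succ L ih =>
    obtain ⟨M, hM⟩ := ih
    refine ⟨(k + 1) * M + 1, fun {X} _ P c hP => ?_⟩
    obtain ⟨x, hx⟩ := Finset.card_pos.mp (by omega : 0 < P.card)
    have hcard : (k + 1) * M ≤ (P.erase x).card := by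
      rw [Finset.card_erase_of_mem hx]; omega
    obtain ⟨i, -, hi⟩ := Finset.exists_le_card_fiber_of_mul_le_card_of_maps_to
      (s := P.erase x) (t := (Finset.univ : Finset (Fin (k + 1)))) (f := fun y => c x y) (n := M)
      (fun _ _ => Finset.mem_univ _) ⟨0, Finset.mem_univ _⟩ (by simpa using hcard)
    obtain ⟨f, g, hf, hg⟩ := hM ((P.erase x).filter (fun y => c x y = i)) c hi
    refine ⟨fun a => if a = 0 then x else f (a - 1), fun a => if a = 0 then i else g (a - 1), ?_, ?_⟩
    · intro a ha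
      by_cases h0 : a = 0
      · simp only [h0, if_true]; exact hx
      · simp only [h0, if_false]
        exact Finset.mem_of_mem_erase (Finset.mem_of_mem_filter _ (hf (a - 1) (by omega)))
    · intro a b hab hb
      have hb0 : b ≠ 0 := by omega
      simp only [hb0, if_false]
      have h2 := Finset.mem_filter.mp (hf (b - 1) (by omega))
      by_cases h0 : a = 0
      · simp only [h0, if_true]
        exact ⟨fun h => Finset.ne_of_mem_erase h2.1 h.symm, h2.2⟩
      · simp only [h0, if_false]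
        exact hg (a - 1) (b - 1) (by omega) (by omega)

/-- Ramsey: a monochromatic clique. -/
lemma ramsey (k m : ℕ) : ∃ n, ∀ c : Sym2 (Fin n) → Fin (k + 1), ∃ i,
    Nonempty ((⊤ : SimpleGraph (Fin m)) →g colourGraph c i) := by
  obtain ⟨M, hM⟩ := endhom (k := k) ((k + 1) * m + 1)
  refine ⟨M, fun c => ?_⟩
  obtain ⟨f, g, -, hg⟩ := hM (Finset.univ : Finset (Fin M)) (fun u v => c s(u, v)) (by simp)
  obtain ⟨i, -, hi⟩ := Finset.exists_le_card_fiber_of_mul_le_card_of_maps_to
      (s := Finset.range ((k + 1) * m)) (t := (Finset.univ : Finset (Fin (k + 1)))) (f := g) (n := m)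
      (fun _ _ => Finset.mem_univ _) ⟨0, Finset.mem_univ _⟩ (by simp)
  obtain ⟨T, hT, hTm⟩ := Finset.exists_subset_card_eq hi
  let e := T.orderEmbOfFin hTm
  have hmem : ∀ a, e a ∈ (Finset.range ((k + 1) * m)).filter (fun x => g x = i) :=
    fun a => hT (Finset.orderEmbOfFin_mem T hTm a)
  have key : ∀ a b : Fin m, a < b → f (e a) ≠ f (e b) ∧ c s(f (e a), f (e b)) = i := by
    intro a b hab
    have h1 := Finset.mem_filter.mp (hmem a)
    have h2 := Finset.mem_filter.mp (hmem b)
    have h3 : e a < e b := e.strictMono hab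
    have h4 := hg (e a) (e b) h3 (by have := Finset.mem_range.mp h2.1; omega)
    exact ⟨h4.1, h4.2.trans h1.2⟩
  refine ⟨i, ⟨⟨fun a => f (e a), ?_⟩⟩⟩
  intro a b hab
  rcases lt_or_gt_of_ne (show a ≠ b from hab) with h | h
  · exact key a b h
  · have := key b a h
    exact ⟨this.1.symm, by rw [Sym2.eq_swap]; exact this.2⟩

/-! ## The two sets agree -/

lemma sets_eq {V W : Type*} {H : SimpleGraph V} {C : SimpleGraph W} (hC : C.Connected)
    (hHC : Nonempty (H →g C)) (hCH : Nonempty (C →g H)) (hedge : ∃ x y, H.Adj x y) (m : ℕ) :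
    grSet (m + 1) H = grStarSet (m + 2) H := by
  obtain ⟨f⟩ := hHC
  obtain ⟨g⟩ := hCH
  have hedgeC : ∃ x y, C.Adj x y := by
    obtain ⟨x, y, h⟩ := hedge
    exact ⟨f x, f y, f.map_adj h⟩
  ext N
  constructor
  · intro hN c
    by_contra hcon
    simp only [not_or, not_not, not_exists, not_and] at hcon
    obtain ⟨⟨hgal, hmono⟩, hvc⟩ := hcon
    obtain ⟨c', hs', hg', hj', -, hf'⟩ := core (X := Fin N) (K := Fin (m + 2)) hC hedgeC _
      (Finset.univ : Finset (Fin N)) rfl (fun u v => c s(u, v)) (fun v => c s(v, v)) ∅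
      (Fin.last (m + 1)) (fun u v => by rw [Sym2.eq_swap])
      (fun u _ v _ w _ => hgal u v w) (fun u _ v _ huv => by
        rcases lt_or_gt_of_ne huv with h | h
        · exact (hvc u v h).1
        · have := (hvc v u h).2
          rwa [Sym2.eq_swap] at this)
      (fun i ⟨φ⟩ => hmono ⟨i, ⟨(⟨φ, fun {x y} h => by
          obtain ⟨_, _, h3, h4, _⟩ := φ.map_adj h
          exact ⟨h3, h4⟩⟩ : C →g colourGraph c i).comp f⟩⟩)
      (fun v _ => Set.notMem_empty _) (Set.notMem_empty _)
    have hlt : ∀ u v : Fin N, u ≠ v → (c' u v : ℕ) < m + 1 := by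
      intro u v huv
      have h1 := hj' u (Finset.mem_univ _) v (Finset.mem_univ _) huv
      have h2 := (c' u v).2
      have h3 : (c' u v : ℕ) ≠ m + 1 := fun h => h1 (Fin.ext h)
      omega
    let d : Fin N → Fin N → Fin (m + 1) := fun u v =>
      if h : (c' u v : ℕ) < m + 1 then ⟨c' u v, h⟩ else 0
    have hd : ∀ u v, u ≠ v → (d u v : ℕ) = c' u v := by
      intro u v huv
      simp only [d, dif_pos (hlt u v huv)]
    have hdeq : ∀ u v x y, u ≠ v → x ≠ y → (d u v = d x y ↔ c' u v = c' x y) := by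
      intro u v x y h1 h2
      rw [Fin.ext_iff, Fin.ext_iff, hd u v h1, hd x y h2]
    let c2 : Sym2 (Fin N) → Fin (m + 1) := Sym2.lift ⟨d, fun u v => by
      simp only [d]
      rw [hs' u v]⟩
    have hc2 : ∀ u v, c2 s(u, v) = d u v := fun u v => rfl
    have hgal2 : Gallai c2 := by
      intro u v w h1 h2 h3
      rw [hc2, hc2, hc2, hdeq _ _ _ _ h1 h2, hdeq _ _ _ _ h2 h3, hdeq _ _ _ _ h1 h3]
      exact hg' u (Finset.mem_univ _) v (Finset.mem_univ _) w (Finset.mem_univ _) h1 h2 h3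
    obtain ⟨i, ⟨φ⟩⟩ := hN c2 hgal2
    refine hf' ⟨i, by omega⟩ ⟨(⟨φ, ?_⟩ : H →g G c' Finset.univ ⟨i, by omega⟩).comp g⟩
    intro x y hxy
    obtain ⟨h1, h2⟩ := φ.map_adj hxy
    refine ⟨Finset.mem_univ _, Finset.mem_univ _, h1, ?_, ?_⟩
    · apply Fin.ext
      rw [← hd _ _ h1, ← hc2, h2]
    · apply Fin.ext
      rw [← hd _ _ h1.symm, ← hc2, Sym2.eq_swap, h2]
  · intro hN c hgal
    classical
    let c2 : Sym2 (Fin N) → Fin (m + 2) := fun e =>
      if e.IsDiag then Fin.last (m + 1) else (c e).castSucc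
    have h1 : ∀ u v : Fin N, u ≠ v → c2 s(u, v) = (c s(u, v)).castSucc := by
      intro u v huv
      simp [c2, huv]
    have h2 : ∀ u : Fin N, c2 s(u, u) = Fin.last (m + 1) := by
      intro u
      simp [c2]
    rcases hN c2 with (h | h) | h
    · exfalso
      apply h
      intro u v w huv hvw huw
      rw [h1 u v huv, h1 v w hvw, h1 u w huw]
      rcases hgal u v w huv hvw huw with h | h | h
      · exact Or.inl (congrArg _ h)
      · exact Or.inr (Or.inl (congrArg _ h))
      · exact Or.inr (Or.inr (congrArg _ h))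
    · obtain ⟨i, ⟨φ⟩⟩ := h
      have hi : (i : ℕ) < m + 1 := by
        obtain ⟨x, y, hxy⟩ := hedge
        obtain ⟨h3, h4⟩ := φ.map_adj hxy
        rw [h1 _ _ h3] at h4
        rw [← h4]
        exact (c s(φ x, φ y)).2
      refine ⟨⟨i, hi⟩, ⟨⟨φ, ?_⟩⟩⟩
      intro x y hxy
      obtain ⟨h3, h4⟩ := φ.map_adj hxy
      rw [h1 _ _ h3] at h4
      exact ⟨h3, Fin.ext (show ((c s(φ x, φ y)).castSucc : ℕ) = i from congrArg Fin.val h4)⟩
    · exfalso
      obtain ⟨i, j, hij, h⟩ := h
      have hne : i ≠ j := ne_of_lt hij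
      rw [h1 i j hne, h2, h2] at h
      rcases h with h | h <;> exact absurd h (Fin.castSucc_ne_last _)

/-- **MP_114a18_co.** For every `k ≥ 2` and every finite non-bipartite graph `H` that is
homomorphically equivalent to a connected graph `C` (equivalently, whose core is connected; in
particular every connected non-bipartite `H`), `GR*_k(H) = GR_{k-1}(𝓗)`: the two sets have a least
element, and it is the same. -/
theorem result {V W : Type} [Finite V] (H : SimpleGraph V) (hH : ¬ H.Colorable 2)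
    (C : SimpleGraph W) (hC : C.Connected) (hHC : Nonempty (H →g C)) (hCH : Nonempty (C →g H))
    (k : ℕ) (hk : 2 ≤ k) :
    ∃ n, IsLeast (grSet (k - 1) H) n ∧ IsLeast (grStarSet k H) n := by
  obtain ⟨m, rfl⟩ := Nat.exists_eq_add_of_le' hk
  have hedge : ∃ x y, H.Adj x y := by
    by_contra hcon
    simp only [not_exists] at hcon
    exact hH ⟨⟨fun _ => 0, fun {x y} h => absurd h (hcon x y)⟩⟩
  have hsets := sets_eq hC hHC hCH hedge m
  have hne : (grSet (m + 1) H).Nonempty := by
    cases nonempty_fintype V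
    obtain ⟨n, hn⟩ := ramsey m (Fintype.card V)
    refine ⟨n, fun c _ => ?_⟩
    obtain ⟨i, ⟨φ⟩⟩ := hn c
    refine ⟨i, ⟨φ.comp ⟨Fintype.equivFin V, ?_⟩⟩⟩
    intro x y h
    exact fun h' => h.ne ((Fintype.equivFin V).injective h')
  refine ⟨sInf (grSet (m + 1) H), ?_, ?_⟩
  · exact ⟨Nat.sInf_mem hne, fun x hx => Nat.sInf_le hx⟩
  · rw [← hsets]
    exact ⟨Nat.sInf_mem hne, fun x hx => Nat.sInf_le hx⟩

end Pool.Agent.Results.MP_114a18_co.ConnectedCore
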